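import Pool.Agent.P.MP_785924_gt.All
import Pool.Agent.P.MP_785924_gt.Main

namespace Pool.Agent.Results.MP_785924_gt.Annulus

open Pool.Agent.P.MP_785924_gt

/-- A free boundary minimal annulus of Morse index at most four in a geodesic ball of the
hemisphere or of hyperbolic space is rotational. -/
theorem result (M : Model) (R T P : ℝ) (x ν : Fin 4 → ℝ × ℝ → ℝ) (hR : M.Radius R) (hT : 0 < T)
    (hP : 0 < P) (h : FBAnnulus M R T P x ν) (hi : ∀ n, IndexGE M R T P x ν n → n ≤ 4) :
    Rotational T x :=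
  main_of all_FR1A all_FR1B all_FR2B all_SC1 all_SC2 all_ROT
    (fun hf hn => frame_flat all_ORAA all_ORAB all_FLIP all_TPG all_CURVE all_CONV all_LEN all_LAMJ
      all_SCAL0 all_FZ all_BODE all_AXIS all_KILL all_UCP all_JACX all_WEN1 all_FV4 all_F1 all_ETA
      all_WEN2 all_WEN3 all_STURM all_HALF all_MEAN all_WENS hf hn)
    M R T P x ν hR hT hP h hi

end Pool.Agent.Results.MP_785924_gt.Annulus
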